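import Pool.Agent.ASE.Stmts3
import Pool.Agent.Helper79_ASO.WTH

/-!
# Squad ASE, row X3C: `X13` in terms of characters

As in `Helper79_ASO/WTH.lean` (`w13_SL`) and `Helper49_ASD/W3C.lean`, with `a`, `b` in place of the
functions `fc`.
-/

open scoped BigOperators

set_option linter.unusedSectionVars false

noncomputable section

namespace Pool.Agent.PP.SE.H58

open Pool.Agent.Helper51_AWC Pool.Agent.Helper79_WRA Pool.Agent.PP Pool.Agent.PP.KF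
open Pool.Agent.PP.K9 Pool.Agent.PP.K9.H97 Pool.Agent.PP.H75 Pool.Agent.PP.T3 Pool.Agent.PP.SO
open Pool.Agent.PP.SD

attribute [local instance] Ideal.Quotient.field

section gen

variable {G : Type} [Group G] [Fintype G]

open Classical in
/-- `reparam` without the elements `c`, `d` -/
theorem reparam1 (b₁ b₂ : G → ℂ) (p : G → G → G → G → Prop) :
    ∑ w : G × G, b₁ w.1 * b₂ w.2 *
      (({z : XX w.1 w.2 | p w.1 z.1.1 z.1.2.1 z.1.2.2} : Set (XX w.1 w.2)).ncard : ℂ) =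
    ∑ a : G × G × G × G, b₁ (a.1 * a.2.1⁻¹) *
      b₂ ((a.2.2.1⁻¹ * a.2.1 * a.2.2.1) * (a.2.2.2⁻¹ * a.1⁻¹ * a.2.2.2)) *
      if p (a.1 * a.2.1⁻¹) a.1 (a.2.2.1 * a.2.2.2⁻¹) a.2.2.1 then 1 else 0 := by
  have h := SO.H79.reparam b₁ b₂ 1 1 p
  simp only [inv_one, one_mul] at h
  rw [← h]
  refine Finset.sum_congr rfl fun w _ => ?_
  rw [SO.H79.xx_count w.1 w.2 (fun x y u => p w.1 x y u),
    SO.H79.xx_count (1 * w.1) (1 * w.2) (fun x y u => p w.1 x y u)]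
  simp only [one_mul]

end gen

section x13

variable {V₀ G : Type} [CommGroup V₀] [Finite V₀] [Group G] [Fintype G]
  {M : Ideal (integralClosure ℤ ℂ)} [M.IsMaximal] {n : ℕ}

/-- `X13` as a sum over quadruples -/
theorem x13_quad (B : Bk (FF M) V₀ G) (m : ℕ) (L : Set (SO.SS n V₀))
    (a b : Subgroup V₀ → G → ℂ) (ha : ∀ g, g ∉ B.C (pL L) → a (pL L) g = 0) :
    X13 B m a b L = ((Nat.card (B.C (pL L)) : ℂ) * Nat.card (B.C (qL L)))⁻¹ *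
      ∑ v : G × G × G × G, a (pL L) (v.1 * v.2.1⁻¹) *
        b (qL L) ((v.2.2.1⁻¹ * v.2.1 * v.2.2.1) * (v.2.2.2⁻¹ * v.1⁻¹ * v.2.2.2)) *
        (SO.H79.ind B m (SO.H79.Lm L) v.2.1 v.2.2.1 * SO.H79.ind B m (SO.H79.Lp L) v.1 v.2.2.2) := by
  classical
  unfold X13
  rw [finsum_eq_sum_of_fintype]
  congr 1
  rw [reparam1 (a (pL L)) (b (qL L))
    (fun g x y u => ∀ s ∈ L, c13 m B.i g x y u s.1 s.2.1 s.2.2.1 s.2.2.2)]
  refine Finset.sum_congr rfl fun v _ => ?_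
  by_cases hg : v.1 * v.2.1⁻¹ ∈ B.C (pL L)
  · congr 1
    have h2 := SO.H79.cond_iff B m L v.1 v.2.1 v.2.2.1 v.2.2.2 hg
    by_cases h3 : ∀ s ∈ L, c13 m B.i (v.1 * v.2.1⁻¹) v.1 (v.2.2.1 * v.2.2.2⁻¹) v.2.2.1
        s.1 s.2.1 s.2.2.1 s.2.2.2
    · rw [if_pos h3]
      have h4 := h2.1 h3
      rw [SO.H79.ind, SO.H79.ind, SO.H79.p1_Lm, SO.H79.p1_Lp, if_pos h4.1, if_pos h4.2, one_mul]
    · rw [if_neg h3]
      by_cases h5 : v.2.1 ∈ B.C (pL L) ∧ SO.H79.PL B.i m (SO.H79.Lm L) v.2.1 v.2.2.1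
      · have h6 : ¬ (v.1 ∈ B.C (pL L) ∧ SO.H79.PL B.i m (SO.H79.Lp L) v.1 v.2.2.2) := fun h6 =>
          h3 (h2.2 ⟨h5, h6⟩)
        rw [SO.H79.ind, SO.H79.ind, SO.H79.p1_Lm, SO.H79.p1_Lp, if_neg h6, mul_zero]
      · rw [SO.H79.ind, SO.H79.ind, SO.H79.p1_Lm, SO.H79.p1_Lp, if_neg h5, zero_mul]
  · simp only [ha _ hg, zero_mul]

/-- `X13` in terms of the sums `SL` -/
theorem x13_SL (B : Bk (FF M) V₀ G) (m : ℕ) (L : Set (SO.SS n V₀))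
    (a b : Subgroup V₀ → G → ℂ) (ha : ∀ g, g ∉ B.C (pL L) → a (pL L) g = 0)
    (h1 : ∀ g, a (pL L) g = ∑ χ ∈ (SO.H79.ch_finite B (pL L)).toFinset,
      cv (a (pL L)) χ * (χ 1 / Nat.card (B.C (pL L))) * χ g⁻¹)
    (h2 : ∀ g, b (qL L) g = ∑ χ ∈ (SO.H79.ch_finite B (qL L)).toFinset,
      cv (b (qL L)) χ * (χ 1 / Nat.card (B.C (qL L))) * χ g⁻¹) :
    X13 B m a b L = (((Nat.card (B.C (pL L)) : ℂ) * Nat.card (B.C (qL L))) ^ 2)⁻¹ *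
      ∑ χ ∈ (SO.H79.ch_finite B (pL L)).toFinset,
        ∑ χ' ∈ (SO.H79.ch_finite B (qL L)).toFinset,
        cv (a (pL L)) χ * cv (b (qL L)) χ' *
          (SL B m (SO.H79.Lm L) χ χ' * starRingEnd ℂ (SL B m (SO.H79.Lp L) χ χ')) := by
  classical
  have i1 := Fintype.ofFinite (B.C (pL L))
  have i2 := Fintype.ofFinite (B.C (qL L))
  have hI : SO.H79.Inv2 (B.C (pL L)) (B.C (qL L)) (SO.H79.ind B m (SO.H79.Lm L)) := by
    have := SO.H79.ind_inv B m (SO.H79.Lm L)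
    rwa [SO.H79.p1_Lm, SO.H79.p2_Lm] at this
  have hs : ∀ X u, SO.H79.ind B m (SO.H79.Lm L) X u ≠ 0 →
      X ∈ B.C (pL L) ∧ u⁻¹ * X⁻¹ * u ∈ B.C (qL L) := by
    intro X u h
    have := SO.H79.ind_supp B m (SO.H79.Lm L) X u h
    rwa [SO.H79.p1_Lm, SO.H79.p2_Lm] at this
  have hs' : ∀ X u, SO.H79.ind B m (SO.H79.Lp L) X u ≠ 0 →
      X ∈ B.C (pL L) ∧ u⁻¹ * X⁻¹ * u ∈ B.C (qL L) := by
    intro X u h
    have := SO.H79.ind_supp B m (SO.H79.Lp L) X u h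
    rwa [SO.H79.p1_Lp, SO.H79.p2_Lp] at this
  have hc1 : (Nat.card (B.C (pL L)) : ℂ) ≠ 0 := by exact_mod_cast Nat.card_pos.ne'
  have hc2 : (Nat.card (B.C (qL L)) : ℂ) ≠ 0 := by exact_mod_cast Nat.card_pos.ne'
  have h3 : ∀ χ ∈ (SO.H79.ch_finite B (pL L)).toFinset,
      ∀ χ' ∈ (SO.H79.ch_finite B (qL L)).toFinset,
      ∑ v : G × G × G × G, χ (v.2.1 * v.1⁻¹) *
        χ' ((v.2.2.2⁻¹ * v.1 * v.2.2.2) * (v.2.2.1⁻¹ * v.2.1⁻¹ * v.2.2.1)) *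
        (SO.H79.ind B m (SO.H79.Lm L) v.2.1 v.2.2.1 * SO.H79.ind B m (SO.H79.Lp L) v.1 v.2.2.2) =
      (χ 1 * χ' 1)⁻¹ * SL B m (SO.H79.Lm L) χ χ' *
        starRingEnd ℂ (SL B m (SO.H79.Lp L) χ χ') := by
    intro χ hχ χ' hχ'
    rw [Set.Finite.mem_toFinset] at hχ hχ'
    rw [SO.H79.split4 (B.C (pL L)) (B.C (qL L)) hχ.2.1 hχ'.2.1 _ _ hI hs hs',
      SO.H79.SL_eq B m (SO.H79.Lm L) χ χ' (by rw [SO.H79.p1_Lm]; exact hχ.1),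
      SO.H79.SL_star B m (SO.H79.Lp L) χ χ' (by rw [SO.H79.p1_Lp]; exact hχ.1)
        (SO.H79.ch_star hχ.1 hχ.2.1) (SO.H79.ch_star hχ'.1 hχ'.2.1)]
  rw [x13_quad B m L a b ha]
  have h4 : ∑ v : G × G × G × G, a (pL L) (v.1 * v.2.1⁻¹) *
        b (qL L) ((v.2.2.1⁻¹ * v.2.1 * v.2.2.1) * (v.2.2.2⁻¹ * v.1⁻¹ * v.2.2.2)) *
        (SO.H79.ind B m (SO.H79.Lm L) v.2.1 v.2.2.1 * SO.H79.ind B m (SO.H79.Lp L) v.1 v.2.2.2) =
      ∑ χ ∈ (SO.H79.ch_finite B (pL L)).toFinset,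
        ∑ χ' ∈ (SO.H79.ch_finite B (qL L)).toFinset,
        (cv (a (pL L)) χ * (χ 1 / Nat.card (B.C (pL L)))) *
        (cv (b (qL L)) χ' * (χ' 1 / Nat.card (B.C (qL L)))) *
        ∑ v : G × G × G × G, χ (v.2.1 * v.1⁻¹) *
          χ' ((v.2.2.2⁻¹ * v.1 * v.2.2.2) * (v.2.2.1⁻¹ * v.2.1⁻¹ * v.2.2.1)) *
          (SO.H79.ind B m (SO.H79.Lm L) v.2.1 v.2.2.1 *
            SO.H79.ind B m (SO.H79.Lp L) v.1 v.2.2.2) := by
    simp only [Finset.mul_sum]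
    rw [Finset.sum_congr rfl fun χ _ => Finset.sum_comm, Finset.sum_comm]
    refine Finset.sum_congr rfl fun v _ => ?_
    rw [h1 (v.1 * v.2.1⁻¹), h2
      ((v.2.2.1⁻¹ * v.2.1 * v.2.2.1) * (v.2.2.2⁻¹ * v.1⁻¹ * v.2.2.2)), Finset.sum_mul_sum,
      Finset.sum_mul]
    refine Finset.sum_congr rfl fun χ _ => ?_
    rw [Finset.sum_mul]
    refine Finset.sum_congr rfl fun χ' _ => ?_
    have e1 : (v.1 * v.2.1⁻¹)⁻¹ = v.2.1 * v.1⁻¹ := by group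
    have e2 : ((v.2.2.1⁻¹ * v.2.1 * v.2.2.1) * (v.2.2.2⁻¹ * v.1⁻¹ * v.2.2.2))⁻¹ =
        (v.2.2.2⁻¹ * v.1 * v.2.2.2) * (v.2.2.1⁻¹ * v.2.1⁻¹ * v.2.2.1) := by group
    rw [e1, e2]
    ring
  rw [h4, Finset.mul_sum, Finset.mul_sum]
  refine Finset.sum_congr rfl fun χ hχ => ?_
  rw [Finset.mul_sum, Finset.mul_sum]
  refine Finset.sum_congr rfl fun χ' hχ' => ?_
  rw [h3 χ hχ χ' hχ']
  have n1 : χ 1 ≠ 0 := SO.H79.one_sub _ ((Set.Finite.mem_toFinset _).1 hχ).2.1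
  have n2 : χ' 1 ≠ 0 := SO.H79.one_sub _ ((Set.Finite.mem_toFinset _).1 hχ').2.1
  field_simp

/-- an element of the centre of the block as a combination of the characters -/
theorem cz_expand (B : Bk (FF M) V₀ G) (W : Subgroup V₀) (a : G → ℂ) (ha : Cz B W a)
    (h : ∀ g ∈ B.C W, a g = ∑ᶠ χ ∈ Ch B W, cv a χ * (χ 1 / Nat.card (B.C W)) * χ g⁻¹) (g : G) :
    a g = ∑ χ ∈ (SO.H79.ch_finite B W).toFinset,
      cv a χ * (χ 1 / Nat.card (B.C W)) * χ g⁻¹ := by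
  by_cases hg : g ∈ B.C W
  · rw [h g hg, finsum_mem_eq_finite_toFinset_sum _ (SO.H79.ch_finite B W)]
  · rw [ha.sup g hg, Finset.sum_eq_zero]
    intro χ hχ
    rw [Set.Finite.mem_toFinset] at hχ
    rw [hχ.1 g⁻¹ (fun h => hg ((B.C W).inv_mem_iff.1 h)), mul_zero]

end x13

theorem x3c (czb : CzbStmt) : X3cStmt := by
  intro ℓ _ M _ hM hℓ V₀ G _ _ _ _ E₀ hF B hS n m hPE L a b ha hb
  classical
  have iG := Fintype.ofFinite G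
  have f1 := (czb ℓ M hM hℓ V₀ G E₀ hF B hS (pL L)).2.1 _ ha
  have f2 := (czb ℓ M hM hℓ V₀ G E₀ hF B hS (qL L)).2.1 _ hb
  have h := x13_SL B m L a b ha.sup (cz_expand B (pL L) _ ha f1) (cz_expand B (qL L) _ hb f2)
  have e1 : SO.H79.Lm L = Lm L := by
    ext s
    exact ⟨fun ⟨t, ht, h⟩ => ⟨t, ht, h.symm⟩, fun ⟨t, ht, h⟩ => ⟨t, ht, h.symm⟩⟩
  have e2 : SO.H79.Lp L = Lq L := by
    ext s
    exact ⟨fun ⟨t, ht, h⟩ => ⟨t, ht, h.symm⟩, fun ⟨t, ht, h⟩ => ⟨t, ht, h.symm⟩⟩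
  rw [e1, e2] at h
  rw [h, finsum_mem_eq_finite_toFinset_sum _ (SO.H79.ch_finite B (pL L)), ← inv_pow]
  congr 1
  refine Finset.sum_congr rfl fun χ _ => ?_
  rw [finsum_mem_eq_finite_toFinset_sum _ (SO.H79.ch_finite B (qL L))]

end Pool.Agent.PP.SE.H58
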