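import Pool.Agent.ASE.Stmts8
import Pool.Agent.Helper24_AT2.DZA
import Pool.Agent.Helper24_AT8.FN8

/-!
# Squad ASE, row FAE: the final theorem

The reduction modulo `O_ℓ(G)`, as in `Helper43_ASO/FRD.lean`; `D` is not supposed to be commutative.
-/

open scoped BigOperators

noncomputable section

namespace Pool.Agent.PP.SE.H58

open Pool.Agent.Helper51_AWC Pool.Agent.Helper79_WRA Pool.Agent.PP Pool.Agent.PP.KF
open Pool.Agent.PP.K9 Pool.Agent.PP.K9.H97 Pool.Agent.PP.H75 Pool.Agent.PP.T3 Pool.Agent.PP.T2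

attribute [local instance] Ideal.Quotient.field

/-- `O_ℓ(G)` central is contained in every good `ℓ`-subgroup of maximal order -/
theorem core_le {ℓ : ℕ} [Fact ℓ.Prime] {k G : Type} [Field k] [Group G] [Finite G]
    (hcen : opCore ℓ G ≤ Subgroup.center G) {e : G → k} {D : Subgroup G} (hTp : Tp ℓ e D) :
    opCore ℓ G ≤ D := by
  have hℓ : ℓ.Prime := Fact.out
  have hZ : IsPGroup ℓ (opCore ℓ G) := H75.opCore_isPGroup hℓ
  have hn : (opCore ℓ G).Normal := H75.opCore_normal (A := G) ℓ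
  have h2 : IsPGroup ℓ (opCore ℓ G ⊔ D : Subgroup G) := hZ.to_sup_of_normal_left hTp.pg
  obtain ⟨z, hz, hz0⟩ := hTp.gd
  have h3 : Gd e (opCore ℓ G ⊔ D) := by
    refine ⟨z, ?_, hz0⟩
    have h4 : opCore ℓ G ⊔ D ≤ Subgroup.centralizer ({z} : Set G) := by
      rw [sup_le_iff]
      constructor
      · intro x hx
        rw [Subgroup.mem_centralizer_singleton_iff]
        exact (Subgroup.mem_center_iff.1 (hcen hx) z).symm
      · intro x hx
        rw [Subgroup.mem_centralizer_singleton_iff]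
        exact Subgroup.mem_centralizer_iff.1 hz x hx
    rw [Subgroup.mem_centralizer_iff]
    intro x hx
    exact Subgroup.mem_centralizer_singleton_iff.1 (h4 hx)
  have h5 := Subgroup.eq_of_le_of_card_ge (le_sup_right : D ≤ opCore ℓ G ⊔ D) (hTp.mx _ h2 h3)
  rw [h5]
  exact le_sup_left

theorem fae (hY : YyfStmt) (hZ : T2.DzaStmt) : FaeStmt := by
  intro ℓ hfact M _ hM h5 G _ _ hc χ hχ D hD hcD
  have hℓ := hfact.out
  have hGF : GoodF ℓ (FF M) := H50.fld ℓ hℓ M hM
  obtain ⟨e, he, h1, h2⟩ := H50.bid ℓ hℓ M hM G χ hχ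
  have hn : (opCore ℓ G).Normal := H75.opCore_normal (A := G) ℓ
  obtain ⟨p, hp⟩ : ∃ p, p = QuotientGroup.mk' (opCore ℓ G) := ⟨_, rfl⟩
  have hsurj : Function.Surjective p := by
    rw [hp]
    exact QuotientGroup.mk'_surjective _
  have hker : p.ker = opCore ℓ G := by
    rw [hp]
    exact QuotientGroup.ker_mk' _
  have hkp : IsPGroup ℓ p.ker := by
    rw [hker]
    exact H75.opCore_isPGroup hℓ
  have hkc : p.ker ≤ Subgroup.center G := by
    rw [hker]
    exact hc
  have heq := H75.altSum_central H20.nls H20.brm H63.smt H94.nch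
    (H50.dic H20.ibn H20.nls H20.brm) hℓ M hM hGF hsurj hker hkp hkc χ hχ e he h1 h2
  have hTp := T2.H24.tp_of_isDef hM he hχ h1 hD
  have hZD : opCore ℓ G ≤ D := core_le hc hTp
  have hcm : Nat.card (D.map p) * Nat.card (opCore ℓ G) = Nat.card D := by
    rw [H6.card_map p D, hker, inf_eq_right.2 hZD]
  have hcV : Nat.card (D.map p) = ℓ ^ 2 := by
    rw [hcD] at hcm
    exact Nat.eq_of_mul_eq_mul_right Nat.card_pos hcm
  have hab : ∀ x ∈ D, ∀ y ∈ D, x * y * x⁻¹ * y⁻¹ ∈ opCore ℓ G := by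
    intro x hx y hy
    have hcomm := (IsPGroup.commGroupOfCardEqPrimeSq (p := ℓ) hcV).mul_comm
      ⟨p x, x, hx, rfl⟩ ⟨p y, y, hy, rfl⟩
    have h3 : p x * p y = p y * p x := congrArg Subtype.val hcomm
    rw [← hker, MonoidHom.mem_ker, map_mul, map_mul, map_mul, map_inv, map_inv, h3,
      mul_inv_cancel_right, mul_inv_cancel]
  obtain ⟨hbf, -, -, γ₀, hγ₀⟩ := hZ ℓ M hM G hc χ hχ D hD hab e he h1 _ p hsurj hker
  have h0 : YY ℓ ⊤ (push p e) = 0 := hY ℓ M hM h5 _ (push p e) hbf (D.map p) hγ₀.tp hcV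
  rw [h0, mul_zero] at heq
  rcases mul_eq_zero.1 heq with h | h
  · exact absurd h (by exact_mod_cast (Nat.card_pos (α := G)).ne')
  · exact h

end Pool.Agent.PP.SE.H58
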